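import Mathlib
import Pool.Agent.Results.MP_cbf366_nt.ThirdOfPairs

/-!
# MP_b51559_nt: a third of the pairs of every large set of multiples of `W`, at every scale

The question asks for two primes `p`, `p + 2` with `n + 4 < p < 2 ^ (n + 4)`, for every `n`.  For
every `ε > 0` there are `W` and `h₀` such that for all large `n`, for every `Y ≥ 9 (n + 4)` (for
instance `Y = 2 ^ (n + 4)`) and for EVERY set `A` of at least `h₀` multiples of `W` up to `Y / 2`,
which may depend on `n` and `Y`, at least a proportion `1/3 - ε` of the pairs `a < b` of elements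
of `A` are such that `b - a` is the difference of two primes `n + 4 < p < p + (b - a) < Y`, in at
least `Y ^ (1 - η)` ways.

Proof.  Two of any four large classes of linear forms are hit by primes, uniformly in the constant
terms (`Pool.Agent.TH899.UG.NW.exactW`, starting files); the box lemma of Erdős (starting files) and
Turán's theorem for random vertices (`MP_cbf366_nt.ThirdOfPairs.dens`).
-/

set_option autoImplicit false

namespace Pool.Agent.Results.MP_b51559_nt.PairsOfEverySet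

open Finset Filter

open Classical in
/-- `m + x` and `m + y` are both prime for at least `N ^ (1 - η)` of the `m` between `N / 8` and
`N / 4` -/
def hit (η : ℝ) (N x y : ℕ) : Prop :=
  (N : ℝ) ^ (1 - η) ≤ (((Icc 1 N).filter (fun m : ℕ => 1 / 8 * (N : ℝ) ≤ m ∧
    (m : ℝ) ≤ 1 / 4 * N ∧ (m + x).Prime ∧ (m + y).Prime)).card : ℝ)

theorem hit_symm {η : ℝ} {N x y : ℕ} (h : hit η N x y) : hit η N y x := by
  unfold hit at h ⊢
  refine h.trans ?_
  rw [Nat.cast_le]
  apply card_le_card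
  intro n hn
  obtain ⟨h1, h2, h3, h4, h5⟩ := mem_filter.1 hn
  exact mem_filter.2 ⟨h1, h2, h3, h5, h4⟩

/-- two of four large classes of multiples of `W` -/
theorem core : ∃ K W : ℕ, 1 ≤ W ∧ ∀ η : ℝ, 0 < η → ∀ᶠ N : ℕ in atTop,
    ∀ B : Fin 4 → Fin K → ℕ, Function.Injective (fun z : Fin 4 × Fin K => B z.1 z.2) →
      (∀ g i, 5 * B g i ≤ 6 * N) → (∀ g i, W ∣ B g i) →
      ∃ g g' i i', g ≠ g' ∧ hit η N (B g i) (B g' i') := by
  classical
  obtain ⟨c, hc, hc1, H⟩ := Pool.Agent.TH899.UG.NW.exactW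
  obtain ⟨K, hK, H⟩ := H (1 / 8) (1 / 4) le_rfl (by norm_num) le_rfl 4 1 (by norm_num)
    (by push_cast; linarith)
  refine ⟨K, (4 * K).factorial, Nat.factorial_pos _, fun η hη => ?_⟩
  filter_upwards [H 1 η hη] with N hN B hinj hB hW
  obtain ⟨S, σ, hS, hcnt⟩ := hN (fun _ _ => (1 : ℤ)) (fun g i => ((B g i : ℕ) : ℤ))
    (fun _ _ => one_ne_zero)
    (fun _ _ => by simp)
    (fun g i => by
      have h1 := hB g i
      have h2 : |((B g i : ℕ) : ℤ)| = (B g i : ℕ) := abs_of_nonneg (Int.natCast_nonneg _)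
      show 5 * |((B g i : ℕ) : ℤ)| ≤ 6 * (N : ℤ)
      rw [h2]
      exact_mod_cast h1)
    (fun g i y h1 h2 => by
      have h3 : (0 : ℝ) ≤ ((B g i : ℕ) : ℝ) := Nat.cast_nonneg _
      have h4 : (0 : ℝ) ≤ (N : ℝ) := Nat.cast_nonneg _
      push_cast
      linarith)
    (by
      rintro z z' h
      apply hinj
      have h2 : ((B z.1 z.2 : ℕ) : ℤ) = ((B z'.1 z'.2 : ℕ) : ℤ) := congrArg Prod.snd h
      show B z.1 z.2 = B z'.1 z'.2
      exact_mod_cast h2)
    (by
      intro p hp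
      by_cases hpK : p ≤ 4 * K
      · refine ⟨1, fun g i h => ?_⟩
        have h1 : (p : ℤ) ∣ ((B g i : ℕ) : ℤ) := by
          exact_mod_cast ((hp.dvd_factorial).2 hpK).trans (hW g i)
        have h2 : (p : ℤ) ∣ 1 := by
          have h3 := (Int.dvd_add_left h1).1 h
          simpa using h3
        have h4 : p ∣ 1 := by exact_mod_cast h2
        exact hp.one_lt.ne' (Nat.dvd_one.1 h4)
      · have : Fact p.Prime := ⟨hp⟩
        let f : Fin 4 × Fin K → ZMod p := fun x => - ((B x.1 x.2 : ℕ) : ZMod p)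
        have hcard : (univ.image f).card < (univ : Finset (ZMod p)).card := by
          rw [card_univ, ZMod.card]
          have h2 : (univ.image f).card ≤ 4 * K := by
            refine card_image_le.trans ?_
            rw [card_univ, Fintype.card_prod, Fintype.card_fin, Fintype.card_fin]
          omega
        obtain ⟨w, -, hw⟩ := Finset.exists_mem_notMem_of_card_lt_card hcard
        refine ⟨(w.val : ℤ), fun g i hd => hw (mem_image.2 ⟨(g, i), mem_univ _, ?_⟩)⟩
        rw [← ZMod.intCast_zmod_eq_zero_iff_dvd] at hd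
        push_cast at hd
        rw [ZMod.natCast_zmod_val] at hd
        show - ((B g i : ℕ) : ZMod p) = w
        linear_combination -hd)
  obtain ⟨g, hg, g', hg', hne⟩ := one_lt_card.1 (by omega : 1 < S.card)
  refine ⟨g, g', σ g, σ g', hne, ?_⟩
  unfold hit
  refine hcnt.trans ?_
  rw [Nat.cast_le]
  apply card_le_card
  intro n hn
  obtain ⟨h4, h5, h6, h7⟩ := mem_filter.1 hn
  have key : ∀ k ∈ S, (n + B k (σ k)).Prime := by
    intro k hk
    have h8 := h7 k hk
    have h9 : ((1 : ℤ) * (n : ℤ) + ((B k (σ k) : ℕ) : ℤ)).toNat = n + B k (σ k) := by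
      have : (1 : ℤ) * (n : ℤ) + ((B k (σ k) : ℕ) : ℤ) = ((n + B k (σ k) : ℕ) : ℤ) := by
        push_cast; ring
      rw [this, Int.toNat_natCast]
    rw [h9] at h8
    exact h8
  exact mem_filter.2 ⟨h4, h5, h6, key g hg, key g' hg'⟩

open Classical in
theorem bad_small (δ : ℝ) (hδ : 0 < δ) (hδ1 : δ ≤ 1) : ∃ R W : ℕ, 1 ≤ W ∧ ∀ η : ℝ, 0 < η →
    ∀ᶠ N : ℕ in atTop, ∀ H : Finset ℕ, R ≤ H.card → (∀ x ∈ H, W ∣ x ∧ 5 * x ≤ 6 * N) →
      (((Fintype.piFinset (fun _ : Fin 4 => H)).filter (fun f => ∀ g g', g ≠ g' →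
        ¬ (f g = f g' ∨ hit η N (f g) (f g')))).card : ℝ) ≤ δ * (H.card : ℝ) ^ 4 := by
  obtain ⟨K, W, hW, hc⟩ := core
  obtain ⟨C, E, hC, HB⟩ := Pool.Agent.TH899.UG.box_pow K 4
  obtain ⟨R, hR⟩ := exists_nat_ge (C / δ ^ E)
  refine ⟨R, W, hW, fun η hη => ?_⟩
  filter_upwards [hc η hη] with N hN H hH hle
  by_contra hcon
  rw [not_le] at hcon
  set Bad := (Fintype.piFinset (fun _ : Fin 4 => H)).filter (fun f => ∀ g g', g ≠ g' →
        ¬ (f g = f g' ∨ hit η N (f g) (f g'))) with hBad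
  obtain ⟨A, hA1, hA2⟩ := HB δ hδ hδ1 ℕ (fun _ => H)
    (fun _ => hR.trans (by exact_mod_cast hH)) Bad (filter_subset _ _)
    (by
      rw [prod_const, card_univ, Fintype.card_fin]
      exact hcon.le)
  have hpair : ∀ g g' i i', g ≠ g' → ¬ (A g i = A g' i' ∨ hit η N (A g i) (A g' i')) := by
    intro g g' i i' hne
    have h1 := (mem_filter.1 (hA2 (Function.update (fun _ => i) g' i'))).2 g g' hne
    simpa [Function.update_of_ne hne] using h1
  have hmem : ∀ g i, A g i ∈ H := by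
    intro g i
    have h1 := (mem_filter.1 (hA2 (fun _ => i))).1
    rw [Fintype.mem_piFinset] at h1
    exact h1 g
  obtain ⟨g, g', i, i', hne, hcnt⟩ := hN A
    (by
      rintro ⟨g, i⟩ ⟨g', i'⟩ h
      have h2 : A g i = A g' i' := h
      by_cases hg : g = g'
      · subst hg
        rw [hA1 g h2]
      · exact absurd (Or.inl h2) (hpair g g' i i' hg))
    (fun g i => (hle _ (hmem g i)).2) (fun g i => (hle _ (hmem g i)).1)
  exact hpair g g' i i' hne (Or.inr hcnt)

/-- the primes `p` with `n + 4 < p` and `p + d < Y` for which `p + d` is prime -/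
def pairs (n Y d : ℕ) : Set ℕ := {p : ℕ | n + 4 < p ∧ p.Prime ∧ (p + d).Prime ∧ p + d < Y}

theorem transfer {η : ℝ} {n Y a b : ℕ} (hY : 9 * (n + 4) ≤ Y) (_ha : 2 * a ≤ Y) (hb : 2 * b ≤ Y)
    (hab : a < b) (h : hit η Y a b) : (Y : ℝ) ^ (1 - η) ≤ ((pairs n Y (b - a)).ncard : ℝ) := by
  classical
  unfold hit at h
  refine h.trans ?_
  have hfin : (pairs n Y (b - a)).Finite :=
    (Set.finite_Iio Y).subset fun p hp => lt_of_le_of_lt (Nat.le_add_right p (b - a)) hp.2.2.2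
  rw [Set.ncard_eq_toFinset_card _ hfin, Nat.cast_le]
  apply Finset.card_le_card_of_injOn (fun m => m + a)
  · intro m hm
    obtain ⟨h1, h2, h3, h4, h5⟩ := mem_filter.1 hm
    have h6 : Y ≤ 8 * m := by
      have : (Y : ℝ) ≤ 8 * (m : ℝ) := by linarith
      exact_mod_cast this
    have h7 : 4 * m ≤ Y := by
      have : 4 * (m : ℝ) ≤ (Y : ℝ) := by linarith
      exact_mod_cast this
    have h8 : m + a + (b - a) = m + b := by omega
    simp only [Set.Finite.coe_toFinset]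
    refine ⟨?_, h4, ?_, ?_⟩
    · show n + 4 < m + a
      omega
    · show (m + a + (b - a)).Prime
      rw [h8]
      exact h5
    · show m + a + (b - a) < Y
      omega
  · intro m _ m' _ hmm
    have h9 : m + a = m' + a := hmm
    omega

open Classical in
/-- **A third of the pairs of every large set of multiples of `W`.** -/
theorem result (ε : ℝ) (hε : 0 < ε) : ∃ W h₀ : ℕ, 1 ≤ W ∧ ∀ η : ℝ, 0 < η → ∀ᶠ n : ℕ in atTop,
    ∀ Y : ℕ, 9 * (n + 4) ≤ Y → ∀ A : Finset ℕ, h₀ ≤ A.card → (∀ a ∈ A, W ∣ a ∧ 2 * a ≤ Y) →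
      (1 / 3 - ε) * (A.card.choose 2 : ℝ) ≤ (((A ×ˢ A).filter (fun q => q.1 < q.2 ∧
        (Y : ℝ) ^ (1 - η) ≤ ((pairs n Y (q.2 - q.1)).ncard : ℝ))).card : ℝ) := by
  -- the parameters
  obtain ⟨s, hs⟩ := exists_nat_ge (4 / ε + 2)
  have hs2 : (2 : ℝ) ≤ s := by
    have : 0 < 4 / ε := by positivity
    linarith
  have hsε : 4 ≤ ε * s := by
    have h1 : 4 / ε ≤ s := by linarith
    rw [div_le_iff₀ hε] at h1
    linarith
  set δ : ℝ := min 1 (ε / (2 * (3 * s : ℝ) ^ 4)) with hδdef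
  have hs4 : 0 < (3 * s : ℝ) ^ 4 := by positivity
  have hδ : 0 < δ := by positivity
  have hδ1 : δ ≤ 1 := min_le_left _ _
  have hδ2 : (3 * s : ℝ) ^ 4 * δ ≤ ε / 2 := by
    have h1 : δ ≤ ε / (2 * (3 * s : ℝ) ^ 4) := min_le_right _ _
    calc (3 * s : ℝ) ^ 4 * δ ≤ (3 * s : ℝ) ^ 4 * (ε / (2 * (3 * s : ℝ) ^ 4)) :=
          mul_le_mul_of_nonneg_left h1 hs4.le
      _ = ε / 2 := by field_simp
  obtain ⟨R, W, hW, hR⟩ := bad_small δ hδ hδ1
  obtain ⟨h₁, hh₁⟩ := exists_nat_ge (4 * (1 + ε) / ε)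
  refine ⟨W, R + h₁ + 1, hW, fun η hη => ?_⟩
  obtain ⟨N₀, hN₀⟩ := eventually_atTop.1 (hR η hη)
  filter_upwards [eventually_ge_atTop N₀] with n hn Y hY H hk hHA
  have hbad := hN₀ Y (by omega) H (by omega) (fun x hx => by
    obtain ⟨h1, h2⟩ := hHA x hx
    exact ⟨h1, by omega⟩)
  set q := ((H ×ˢ H).filter (fun z => z.1 = z.2 ∨ hit η Y z.1 z.2)).card with hq
  have hd : (3 * s * (s : ℝ) - 3 * s) * ((1 - (3 * s : ℝ) ^ 4 * δ) * (H.card : ℝ) ^ 2) ≤
      (9 * (s : ℝ) * s - 3 * s) * (q : ℝ) := by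
    have h0 := MP_cbf366_nt.ThirdOfPairs.dens H (fun x y => x = y ∨ hit η Y x y)
      (fun x y h => h.elim (fun h => Or.inl h.symm) (fun h => Or.inr (hit_symm h))) s δ (by omega)
      (by convert hbad)
    rw [hq]
    convert h0
  set F := (H ×ˢ H).filter (fun q => q.1 < q.2 ∧
        (Y : ℝ) ^ (1 - η) ≤ ((pairs n Y (q.2 - q.1)).ncard : ℝ)) with hF
  -- the number of the pairs
  have hqF : q ≤ H.card + 2 * F.card := by
    have h1 : (H ×ˢ H).filter (fun z => z.1 = z.2 ∨ hit η Y z.1 z.2) ⊆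
        (H.image (fun x => (x, x))) ∪ (F ∪ F.image Prod.swap) := by
      rintro ⟨x, y⟩ hz
      obtain ⟨hz1, hz2⟩ := mem_filter.1 hz
      obtain ⟨hx, hy⟩ := mem_product.1 hz1
      rcases lt_trichotomy x y with hlt | heq | hgt
      · refine mem_union_right _ (mem_union_left _ (mem_filter.2 ⟨hz1, hlt, ?_⟩))
        rcases hz2 with h2 | h2
        · exact absurd h2 hlt.ne
        · exact transfer hY (hHA x hx).2 (hHA y hy).2 hlt h2
      · refine mem_union_left _ (mem_image.2 ⟨x, hx, ?_⟩)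
        rw [heq]
      · refine mem_union_right _ (mem_union_right _ (mem_image.2 ⟨(y, x), mem_filter.2
          ⟨mem_product.2 ⟨hy, hx⟩, hgt, ?_⟩, rfl⟩))
        rcases hz2 with h2 | h2
        · exact absurd h2 hgt.ne'
        · exact transfer hY (hHA y hy).2 (hHA x hx).2 hgt (hit_symm h2)
    have h2 := card_le_card h1
    have h3 := card_union_le (H.image (fun x => (x, x))) (F ∪ F.image Prod.swap)
    have h4 := card_union_le F (F.image Prod.swap)
    have h5 : (H.image (fun x => (x, x))).card ≤ H.card := card_image_le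
    have h6 : (F.image Prod.swap).card ≤ F.card := card_image_le
    omega
  have hqF' : (q : ℝ) ≤ (H.card : ℝ) + 2 * F.card := by exact_mod_cast hqF
  set h : ℝ := (H.card : ℝ) with hh
  have hhbig : 4 * (1 + ε) / ε ≤ h := by
    refine hh₁.trans ?_
    rw [hh]
    exact_mod_cast (by omega : h₁ ≤ H.card)
  have hh0 : 0 < h := lt_of_lt_of_le (by positivity) hhbig
  have hhε : 4 * (1 + ε) ≤ ε * h := by
    rw [div_le_iff₀ hε] at hhbig
    linarith
  have hch : ((H.card.choose 2 : ℕ) : ℝ) = h * (h - 1) / 2 := by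
    rw [Nat.cast_choose_two]
  rw [hch]
  -- the density
  have hs1 : 0 < (s : ℝ) := by linarith
  have hd2 : ((s : ℝ) - 1) * ((1 - ε / 2) * h ^ 2) ≤ (3 * (s : ℝ) - 1) * q := by
    have h1 : (3 * s * (s : ℝ) - 3 * s) * ((1 - ε / 2) * h ^ 2) ≤
        (3 * s * (s : ℝ) - 3 * s) * ((1 - (3 * s : ℝ) ^ 4 * δ) * h ^ 2) := by
      apply mul_le_mul_of_nonneg_left _ (by nlinarith)
      apply mul_le_mul_of_nonneg_right _ (by positivity)
      linarith
    have h2 := h1.trans hd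
    have h3 : (3 * (s : ℝ)) * (((s : ℝ) - 1) * ((1 - ε / 2) * h ^ 2)) ≤
        (3 * (s : ℝ)) * ((3 * (s : ℝ) - 1) * q) := by
      calc (3 * (s : ℝ)) * (((s : ℝ) - 1) * ((1 - ε / 2) * h ^ 2))
          = (3 * s * (s : ℝ) - 3 * s) * ((1 - ε / 2) * h ^ 2) := by ring
        _ ≤ (9 * (s : ℝ) * s - 3 * s) * (q : ℝ) := h2
        _ = (3 * (s : ℝ)) * ((3 * (s : ℝ) - 1) * q) := by ring
    exact le_of_mul_le_mul_left h3 (by positivity)
  have hq2 : (1 / 3 - ε / 2) * h ^ 2 ≤ (q : ℝ) := by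
    have h1 : (3 * (s : ℝ) - 1) * ((1 / 3 - ε / 2) * h ^ 2) ≤
        ((s : ℝ) - 1) * ((1 - ε / 2) * h ^ 2) := by
      have h2 : (3 * (s : ℝ) - 1) * (1 / 3 - ε / 2) ≤ ((s : ℝ) - 1) * (1 - ε / 2) := by
        nlinarith
      have h3 := mul_le_mul_of_nonneg_right h2 (by positivity : (0 : ℝ) ≤ h ^ 2)
      linarith
    exact le_of_mul_le_mul_left (h1.trans hd2) (by linarith)
  nlinarith

end Pool.Agent.Results.MP_b51559_nt.PairsOfEverySet
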